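/-
MP_aa62e0_lc (sample compression schemes, Floyd-Warmuth).

There is an absolute constant c such that every finite concept class of VC dimension d has a
labelled sample compression scheme of size at most c d^2 (1 + log d)^2.

The proof is in Pool/Agent/Lib/MP_aa62e0_lcV2 (a pair of a point set T and a law on the class which
maximises entropy - M * error - price * |T| is rigid; stable committees of measures; learning
mixtures by minimax; weighted majority over the first members of all patterns on T and on a sample)
and in Pool/Agent/Lib/MP_aa62e0_lcT/Advice.lean (the labels of the kept points carry the side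
information).
-/
import Pool.Agent.Lib.MP_aa62e0_lcV2.Final

set_option autoImplicit false

namespace Pool.Agent.Results.MP_aa62e0_lc.PolynomialCompression

/-- There is a constant c such that every finite concept class of VC dimension d has a labelled
sample compression scheme of size at most c d^2 (log d + 1)^2: each realizable sample is compressed
to a subsample, from which alone a hypothesis consistent with the whole sample is rebuilt. -/
theorem result :
    ∃ c : ℕ, ∀ (X : Type) [Fintype X] [DecidableEq X] (C : Finset (Finset X)),
      ∃ κ : Finset (X × Bool) → Finset (X × Bool),
      ∃ ρ : Finset (X × Bool) → (X → Bool),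
        ∀ S : Finset (X × Bool),
          (∃ A ∈ C, ∀ p ∈ S, decide (p.1 ∈ A) = p.2) →
            κ S ⊆ S ∧
            (κ S).card ≤ c * (C.vcDim ^ 2 * (Nat.log 2 C.vcDim + 1) ^ 2) ∧
            ∀ p ∈ S, ρ (κ S) p.1 = p.2 :=
  Pool.Agent.MPaa62e0V.final

end Pool.Agent.Results.MP_aa62e0_lc.PolynomialCompression
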