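/-
MP_aa62e0_lc (sample compression schemes, Floyd-Warmuth).

Every finite concept class C of VC dimension d has a labelled sample compression scheme which
compresses every sample with a distinguished points to at most
O(d (1 + log (log |C| / (d (1 + log (a / d)))))) points.
-/
import Pool.Agent.Lib.MP_aa62e0_lc.MainS
import Pool.Agent.Lib.MP_aa62e0_lc.MainT
import Pool.Agent.Lib.MP_aa62e0_lc.Dual
import Pool.Agent.Lib.MP_aa62e0_lc.Pullback

set_option autoImplicit false

open Finset
open scoped symmDiff

namespace Pool.Agent.Results.MP_aa62e0_lc.SampleSizeCompression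

open Pool.Agent.MPaa62e0

set_option linter.unusedSectionVars false

/-- The number of points of the sample S that the class C tells apart: points lying in the same
members of C are counted once. -/
def numPoints {X : Type} [DecidableEq X] (C : Finset (Finset X)) (S : Finset (X × Bool)) : ℕ :=
  (S.image (fun p => C.filter (fun A => p.1 ∈ A))).card

section aux

variable {X Y : Type} [Fintype X] [DecidableEq X] [Fintype Y] [DecidableEq Y]

/-- domain of a labelled sample, seen in Y -/
def dom (π : X → Y) (S : Finset (X × Bool)) : Finset Y := S.image (fun p => π p.1)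

/-- positive points of a labelled sample, seen in Y -/
def pos (π : X → Y) (S : Finset (X × Bool)) : Finset Y :=
  (S.filter (fun p => p.2 = true)).image (fun p => π p.1)

theorem pos_eq (π : X → Y) (S : Finset (X × Bool)) (A' : Finset Y)
    (hA : ∀ p ∈ S, decide (π p.1 ∈ A') = p.2) : pos π S = dom π S ∩ A' := by
  ext x
  simp only [pos, dom, Finset.mem_image, Finset.mem_filter, Finset.mem_inter]
  constructor
  · rintro ⟨p, ⟨hp, hp2⟩, rfl⟩
    refine ⟨⟨p, hp, rfl⟩, ?_⟩
    have := hA p hp
    rw [hp2] at this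
    exact of_decide_eq_true this
  · rintro ⟨⟨p, hp, rfl⟩, hx⟩
    refine ⟨p, ⟨hp, ?_⟩, rfl⟩
    rw [← hA p hp]
    exact decide_eq_true hx

theorem lift_subset (π : X → Y) (S : Finset (X × Bool)) (W : Finset Y) (hW : W ⊆ dom π S) :
    ∃ T ⊆ S, T.card = W.card ∧ dom π T = W := by
  have h : ∀ r : W, ∃ p ∈ S, π p.1 = r.1 := fun r => by
    have := hW r.2
    rw [dom, Finset.mem_image] at this
    exact this
  choose g hg1 hg2 using h
  refine ⟨(Finset.univ : Finset W).image g, ?_, ?_, ?_⟩
  · intro p hp
    rw [Finset.mem_image] at hp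
    obtain ⟨r, _, rfl⟩ := hp
    exact hg1 r
  · rw [Finset.card_image_of_injective]
    · simp
    · intro r r' hrr
      apply Subtype.ext
      rw [← hg2 r, ← hg2 r', hrr]
  · ext y
    simp only [dom, Finset.mem_image, Finset.mem_univ, true_and]
    constructor
    · rintro ⟨p, ⟨r, rfl⟩, rfl⟩
      rw [hg2 r]
      exact r.2
    · intro hy
      exact ⟨g ⟨y, hy⟩, ⟨⟨y, hy⟩, rfl⟩, hg2 ⟨y, hy⟩⟩

open Classical in
/-- The decoder: known labels are repeated, the others are given by the hypothesis belonging to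
the labelled set; which family of hypotheses is used is read off from the number of points. -/
noncomputable def decoder (q : ℕ) (π : X → Y) (H : ℕ → Finset Y → Finset Y → Finset Y)
    (T : Finset (X × Bool)) : X → Bool := fun x =>
  if π x ∈ dom π T then decide (π x ∈ pos π T)
  else decide (π x ∈ H (T.card / q - 1) (dom π T) (pos π T))

/-- the arithmetic of the level of a sample: the class has less than
2 ^ (d (y + 1) 2 ^ P) members if P = log₂ (log₂ |C| / (d (y + 1))) + 1 -/
theorem card_le_level (m d y : ℕ) (hd : 1 ≤ d) :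
    m ≤ 2 ^ (d * (y + 1) * 2 ^ (Nat.log 2 (Nat.log 2 m / (d * (y + 1))) + 1)) := by
  have h1 : m < 2 ^ (Nat.log 2 m + 1) := Nat.lt_pow_succ_log_self (by norm_num) _
  have hpos : 0 < d * (y + 1) := by positivity
  have h2 : Nat.log 2 m < d * (y + 1) * (Nat.log 2 m / (d * (y + 1)) + 1) :=
    Nat.lt_mul_div_succ _ hpos
  have h3 : Nat.log 2 m / (d * (y + 1)) <
      2 ^ (Nat.log 2 (Nat.log 2 m / (d * (y + 1))) + 1) :=
    Nat.lt_pow_succ_log_self (by norm_num) _
  have h4 : d * (y + 1) * (Nat.log 2 m / (d * (y + 1)) + 1) ≤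
      d * (y + 1) * 2 ^ (Nat.log 2 (Nat.log 2 m / (d * (y + 1))) + 1) :=
    Nat.mul_le_mul_left _ h3
  exact h1.le.trans (Nat.pow_le_pow_right (by norm_num) (by omega))

/-- Comparison of the level of a small sample with the level of the whole class. -/
theorem level_le (L d y P : ℕ) (hP : P = Nat.log 2 (L / (d * (y + 1))) + 1)
    (hy : y < 82 + 2 * P) : Nat.log 2 (L / d) + 1 ≤ 2 * P + 8 := by
  have h1 : L / d < 2 ^ (2 * P + 8) := by
    have h2 : L / (d * (y + 1)) < 2 ^ P := by
      rw [hP]
      exact Nat.lt_pow_succ_log_self (by norm_num) _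
    rw [← Nat.div_div_eq_div_mul] at h2
    have h3 : L / d < (y + 1) * (L / d / (y + 1) + 1) := Nat.lt_mul_div_succ _ (by omega)
    have h4 : (y + 1) * (L / d / (y + 1) + 1) ≤ (y + 1) * 2 ^ P := Nat.mul_le_mul_left _ h2
    have h5 : y + 1 ≤ 2 ^ (P + 8) := by
      have h6 : P + 1 ≤ 2 ^ P := Nat.lt_two_pow_self
      calc y + 1 ≤ 82 * (P + 1) := by omega
        _ ≤ 256 * (P + 1) := by omega
        _ ≤ 256 * 2 ^ P := Nat.mul_le_mul_left _ h6
        _ = 2 ^ (P + 8) := by rw [pow_add]; ring
    calc L / d < (y + 1) * 2 ^ P := by omega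
      _ ≤ 2 ^ (P + 8) * 2 ^ P := Nat.mul_le_mul_right _ h5
      _ = 2 ^ (2 * P + 8) := by rw [← pow_add]; congr 1; omega
  rcases Nat.eq_zero_or_pos (L / d) with h0 | h0
  · rw [h0, Nat.log_zero_right]
    omega
  · exact Nat.log_lt_of_lt_pow (by omega) h1

/-- The number of points of a sample and the size of its domain in the quotient. -/
theorem card_dom (π : X → Y) (out : Y → X) (C : Finset (Finset X))
    (hout : ∀ x : X, ∀ c ∈ C, (out (π x) ∈ c ↔ x ∈ c))
    (hsep : ∀ q q' : Y, (∀ c ∈ C, (out q ∈ c ↔ out q' ∈ c)) → q = q')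
    (S : Finset (X × Bool)) : (dom π S).card = numPoints C S := by
  have h1 : S.image (fun p => C.filter (fun A => p.1 ∈ A)) =
      (dom π S).image (fun q => C.filter (fun A => out q ∈ A)) := by
    rw [dom, Finset.image_image]
    refine Finset.image_congr fun p _ => ?_
    exact (Finset.filter_congr fun c hc => hout p.1 c hc).symm
  rw [numPoints, h1, Finset.card_image_of_injective]
  intro q q' h
  refine hsep q q' fun c hc => ?_
  have h2 : (c ∈ C.filter (fun A => out q ∈ A)) ↔ (c ∈ C.filter (fun A => out q' ∈ A)) := by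
    have h3 : C.filter (fun A => out q ∈ A) = C.filter (fun A => out q' ∈ A) := h
    rw [h3]
  rw [Finset.mem_filter, Finset.mem_filter] at h2
  tauto

end aux

/-- There is a constant c such that every finite concept class C of VC dimension d has a labelled
sample compression scheme in which every sample with a points (counted up to equivalence under C)
is compressed to at most c d (log₂ (log₂ |C| / (d (log₂ (a / d) + 1))) + 1) points. -/
theorem result :
    ∃ c : ℕ, ∀ (X : Type) [Fintype X] [DecidableEq X] (C : Finset (Finset X)),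
      ∃ κ : Finset (X × Bool) → Finset (X × Bool),
      ∃ ρ : Finset (X × Bool) → (X → Bool),
        ∀ S : Finset (X × Bool),
          (∃ A ∈ C, ∀ p ∈ S, decide (p.1 ∈ A) = p.2) →
            κ S ⊆ S ∧
              (κ S).card ≤ c * C.vcDim * (Nat.log 2 (Nat.log 2 C.card /
                (C.vcDim * (Nat.log 2 (numPoints C S / C.vcDim) + 1))) + 1) ∧
              ∀ p ∈ S, ρ (κ S) p.1 = p.2 := by
  refine ⟨2 ^ 47, ?_⟩
  intro X _ _ C
  classical
  by_cases hd0 : C.vcDim = 0
  · have hC1 : C.card ≤ 1 := by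
      have := card_class_le C
      rwa [hd0, pow_zero] at this
    refine ⟨fun _ => ∅, fun _ x => decide (∃ A ∈ C, x ∈ A), ?_⟩
    rintro S ⟨A, hAC, hA⟩
    refine ⟨Finset.empty_subset _, by simp, fun p hp => ?_⟩
    rw [← hA p hp]
    refine decide_eq_decide.2 ⟨?_, fun h => ⟨A, hAC, h⟩⟩
    rintro ⟨A', hA', h⟩
    rwa [Finset.card_le_one.1 hC1 A' hA' A hAC] at h
  · obtain ⟨d, hdd⟩ : ∃ d : ℕ, d = C.vcDim := ⟨_, rfl⟩
    rw [← hdd] at hd0
    have hd : 1 ≤ d := Nat.one_le_iff_ne_zero.2 hd0
    rw [← hdd]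
    obtain ⟨K, hKdef⟩ : ∃ K : ℕ, K = 2 ^ 40 := ⟨_, rfl⟩
    obtain ⟨P, hPdef⟩ : ∃ P : ℕ, P = Nat.log 2 (Nat.log 2 C.card / d) + 1 := ⟨_, rfl⟩
    have hcard : C.card ≤ 2 ^ (d * 2 ^ P) := by
      have h1 := card_le_level C.card d 0 hd
      rwa [zero_add, mul_one, ← hPdef] at h1
    -- the separated points
    let st : Setoid X :=
      { r := fun x y => ∀ c ∈ C, (x ∈ c ↔ y ∈ c)
        iseqv := ⟨fun x c _ => Iff.rfl, fun h c hc => (h c hc).symm,
          fun h h' c hc => (h c hc).trans (h' c hc)⟩ }
    let Y : Type := Quotient st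
    let π : X → Y := fun x => Quotient.mk st x
    let out : Y → X := fun q => Quotient.out q
    have hout : ∀ x : X, ∀ c ∈ C, (out (π x) ∈ c ↔ x ∈ c) := fun x =>
      Quotient.exact (s := st) (Quotient.out_eq (Quotient.mk st x))
    have hπout : ∀ q : Y, π (out q) = q := fun q => Quotient.out_eq q
    have houtinj : Function.Injective out := fun q q' h => by
      rw [← hπout q, ← hπout q', h]
    have hsep : ∀ q q' : Y, (∀ c ∈ C, (out q ∈ c ↔ out q' ∈ c)) → q = q' := fun q q' h => by
      have h1 : π (out q) = π (out q') := Quotient.sound (s := st) h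
      rw [hπout, hπout] at h1
      exact h1
    let C' : Finset (Finset Y) := C.image (fun c => Finset.univ.filter (fun q : Y => out q ∈ c))
    have hC' : C'.vcDim ≤ d := by
      rw [hdd]
      exact vcDim_pullback out C
    have hcard'' : C'.card ≤ C.card := Finset.card_image_le
    have hYE : ∀ E : ℕ, C.card ≤ 2 ^ E → Fintype.card Y ≤ 2 ^ ((E + 1) * 2 ^ (d + 1)) := by
      intro E hE
      have h1 : ((Finset.univ : Finset Y).image out).card ≤ (C.card + 1) ^ (2 ^ (d + 1)) := by
        refine dual_card C d hdd.ge _ ?_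
        intro x hx y hy hxy
        rw [Finset.mem_image] at hx hy
        obtain ⟨q, _, rfl⟩ := hx
        obtain ⟨q', _, rfl⟩ := hy
        by_contra hcon
        push Not at hcon
        exact hxy (by rw [hsep q q' hcon])
      rw [Finset.card_image_of_injective _ houtinj, Finset.card_univ] at h1
      refine h1.trans ?_
      have h2 : C.card + 1 ≤ 2 ^ (E + 1) := by
        have : 1 ≤ 2 ^ E := Nat.one_le_two_pow
        rw [pow_succ]
        omega
      calc (C.card + 1) ^ (2 ^ (d + 1)) ≤ (2 ^ (E + 1)) ^ (2 ^ (d + 1)) :=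
            Nat.pow_le_pow_left h2 _
        _ = 2 ^ ((E + 1) * 2 ^ (d + 1)) := by rw [← pow_mul]
    have hY : Fintype.card Y ≤ 2 ^ 2 ^ (2 * d + P + 2) := by
      refine (hYE _ hcard).trans (Nat.pow_le_pow_right (by norm_num) ?_)
      have h4 : d + 1 ≤ 2 ^ d := Nat.lt_two_pow_self
      have h5 : 1 ≤ 2 ^ P := Nat.one_le_two_pow
      calc (d * 2 ^ P + 1) * 2 ^ (d + 1) ≤ (d * 2 ^ P + 1 * 2 ^ P) * 2 ^ (d + 1) := by
            apply Nat.mul_le_mul_right; omega
        _ = (d + 1) * 2 ^ P * 2 ^ (d + 1) := by ring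
        _ ≤ 2 ^ d * 2 ^ P * 2 ^ (d + 1) := by gcongr
        _ = 2 ^ (2 * d + P + 1) := by rw [← pow_add, ← pow_add]; congr 1; omega
        _ ≤ 2 ^ (2 * d + P + 2) := Nat.pow_le_pow_right (by norm_num) (by omega)
    -- the decoding functions
    obtain ⟨H0, hH0⟩ := exists_HS (X := Y) K d P hKdef.ge
      (by rw [hKdef]; exact ⟨2 ^ 33, by norm_num⟩) hd C' hC' (hcard''.trans hcard) hY
    have hx0 : ∀ Q : ℕ, ∃ x0 : ℕ, C.card ≤ 2 ^ (2 * d * (2 * x0 + 7) * 2 ^ Q) ∧
        ∀ x : ℕ, C.card ≤ 2 ^ (2 * d * (2 * x + 7) * 2 ^ Q) → x0 ≤ x := by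
      intro Q
      have hex : ∃ x0 : ℕ, C.card ≤ 2 ^ (2 * d * (2 * x0 + 7) * 2 ^ Q) := by
        refine ⟨C.card, ?_⟩
        have h1 : C.card < 2 ^ C.card := Nat.lt_two_pow_self
        refine h1.le.trans (Nat.pow_le_pow_right (by norm_num) ?_)
        have h5 : 1 ≤ 2 ^ Q := Nat.one_le_two_pow
        calc C.card ≤ 1 * (2 * C.card + 7) * 1 := by omega
          _ ≤ 2 * d * (2 * C.card + 7) * 2 ^ Q := by
            apply Nat.mul_le_mul _ h5
            apply Nat.mul_le_mul_right
            omega
      exact ⟨Nat.find hex, Nat.find_spec hex, fun x hx => Nat.find_min' hex hx⟩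
    choose x0 hx0a hx0b using hx0
    have hT : ∀ Q : ℕ, ∃ H : Finset Y → Finset Y → Finset Y, ∀ A B : Finset Y,
        (∃ c ∈ C', B = A ∩ c) → 2 * d * 2 ^ (x0 Q) ≤ A.card →
        (K * (Q + 1)) * (K * (Q + 1) * d) ≤ A.card →
        ∃ W ∈ A.powersetCard (K * (Q + 1) * d), A ∩ (H W (W ∩ B) ∆ B) ⊆ W := fun Q =>
      exists_HT (X := Y) K d Q (x0 Q) hKdef.ge hd C' hC' (hcard''.trans (hx0a Q))
        (hYE _ (hx0a Q))
    choose H1 hH1 using hT
    obtain ⟨H, hHdef⟩ : ∃ H : ℕ → Finset Y → Finset Y → Finset Y,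
        H = fun Q => if Q = P then H0 else H1 Q := ⟨_, rfl⟩
    have hHP : H P = H0 := by rw [hHdef]; simp
    have hHQ : ∀ Q : ℕ, Q ≠ P → H Q = H1 Q := fun Q hQ => by rw [hHdef]; simp [hQ]
    -- the compressed sample
    have hex : ∀ S : Finset (X × Bool), (∃ A ∈ C, ∀ p ∈ S, decide (p.1 ∈ A) = p.2) →
        ∃ T : Finset (X × Bool), T ⊆ S ∧ T.card ≤ 2 ^ 47 * d * (Nat.log 2 (Nat.log 2 C.card /
          (d * (Nat.log 2 (numPoints C S / d) + 1))) + 1) ∧
          ∀ p ∈ S, decoder (K * d) π H T p.1 = p.2 := by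
      rintro S ⟨A, hAC, hA⟩
      let A' : Finset Y := Finset.univ.filter (fun q : Y => out q ∈ A)
      have hA'C : A' ∈ C' := Finset.mem_image_of_mem _ hAC
      have hA' : ∀ p ∈ S, decide (π p.1 ∈ A') = p.2 := fun p hp => by
        rw [← hA p hp]
        refine decide_eq_decide.2 ?_
        rw [← hout p.1 A hAC]
        simp [A']
      have hlab : ∀ p ∈ S, decide (π p.1 ∈ pos π S) = p.2 := fun p hp => by
        rw [← hA' p hp]
        refine decide_eq_decide.2 ?_
        rw [pos_eq π S A' hA', Finset.mem_inter]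
        exact and_iff_right (Finset.mem_image_of_mem _ hp)
      -- a subset of S with given domain
      have hlift : ∀ W : Finset Y, W ⊆ dom π S → ∃ T ⊆ S, T.card = W.card ∧ dom π T = W ∧
          pos π T = W ∩ pos π S := by
        intro W hW
        obtain ⟨T, hTS, hTc, hTd⟩ := lift_subset π S W hW
        refine ⟨T, hTS, hTc, hTd, ?_⟩
        rw [pos_eq π T A' (fun p hp => hA' p (hTS hp)), pos_eq π S A' hA', hTd,
          ← Finset.inter_assoc, Finset.inter_eq_left.2 hW]
      -- decoding with the family of level Q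
      have hKd : 0 < K * d := Nat.mul_pos (by rw [hKdef]; norm_num) hd
      have hdec : ∀ Q : ℕ, (∃ W ∈ (dom π S).powersetCard (K * (Q + 1) * d),
          dom π S ∩ (H Q W (W ∩ pos π S) ∆ pos π S) ⊆ W) →
          ∃ T ⊆ S, T.card = K * (Q + 1) * d ∧ ∀ p ∈ S, decoder (K * d) π H T p.1 = p.2 := by
        rintro Q ⟨W, hW, hgood⟩
        rw [Finset.mem_powersetCard] at hW
        obtain ⟨T, hTS, hTc, hTd, hTp⟩ := hlift W hW.1
        have hq : T.card / (K * d) - 1 = Q := by
          rw [hTc, hW.2, show K * (Q + 1) * d = (Q + 1) * (K * d) by ring,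
            Nat.mul_div_cancel _ hKd]
          omega
        refine ⟨T, hTS, by rw [hTc, hW.2], fun p hp => ?_⟩
        have hx : π p.1 ∈ dom π S := Finset.mem_image_of_mem _ hp
        rw [← hlab p hp]
        unfold decoder
        by_cases hpW : π p.1 ∈ W
        · rw [if_pos (by rw [hTd]; exact hpW), hTp]
          refine decide_eq_decide.2 ?_
          rw [Finset.mem_inter]
          exact and_iff_right hpW
        · rw [if_neg (by rw [hTd]; exact hpW), hq, hTd, hTp]
          refine decide_eq_decide.2 ?_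
          have h2 : π p.1 ∉ (H Q W (W ∩ pos π S)) ∆ (pos π S) := fun hc =>
            hpW (hgood (Finset.mem_inter.2 ⟨hx, hc⟩))
          rw [Finset.mem_symmDiff] at h2
          tauto
      -- the scheme of the whole class
      have hfull : ∃ T ⊆ S, T.card ≤ 4 * (K * (P + 1) * d) ∧
          ∀ p ∈ S, decoder (K * d) π H T p.1 = p.2 := by
        by_cases hS : (dom π S).card < 4 * (K * (P + 1) * d)
        · obtain ⟨T, hTS, hTc, hTd, hTp⟩ := hlift (dom π S) (Finset.Subset.refl _)
          refine ⟨T, hTS, by omega, fun p hp => ?_⟩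
          have hx : π p.1 ∈ dom π S := Finset.mem_image_of_mem _ hp
          have hps : pos π S ⊆ dom π S := by
            rw [pos_eq π S A' hA']
            exact Finset.inter_subset_left
          unfold decoder
          rw [if_pos (by rw [hTd]; exact hx), hTp, Finset.inter_eq_right.2 hps]
          exact hlab p hp
        · push Not at hS
          obtain ⟨T, hTS, hTc, hT⟩ := hdec P (by
            rw [hHP]
            exact hH0 (dom π S) (pos π S) ⟨A', hA'C, pos_eq π S A' hA'⟩ hS)
          exact ⟨T, hTS, by omega, hT⟩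
      have hnum : (dom π S).card = numPoints C S := card_dom π out C hout hsep S
      rw [← hnum]
      obtain ⟨a, ha⟩ : ∃ a : ℕ, a = (dom π S).card := ⟨_, rfl⟩
      obtain ⟨y, hy⟩ : ∃ y : ℕ, y = Nat.log 2 (a / d) := ⟨_, rfl⟩
      obtain ⟨L, hL⟩ : ∃ L : ℕ, L = Nat.log 2 C.card := ⟨_, rfl⟩
      obtain ⟨Q, hQ⟩ : ∃ Q : ℕ, Q = Nat.log 2 (L / (d * (y + 1))) + 1 := ⟨_, rfl⟩
      rw [← ha, ← hy, ← hL, ← hQ]
      have hcardQ : C.card ≤ 2 ^ (d * (y + 1) * 2 ^ Q) := by
        have h1 := card_le_level C.card d y hd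
        rwa [← hL, ← hQ] at h1
      have hdpos : 0 < d := hd
      -- small samples or large samples
      by_cases hbig : (K * (Q + 1)) * (K * (Q + 1) * d) ≤ a ∧ Q ≠ P
      · obtain ⟨hbig, hne⟩ := hbig
        have h2d : 2 * d ≤ a := by
          refine le_trans ?_ hbig
          have hK2 : 2 ≤ K := by rw [hKdef]; norm_num
          have h3 : 2 * 1 ≤ K * (Q + 1) := Nat.mul_le_mul hK2 (by omega)
          calc 2 * d = (2 * 1) * (1 * 1 * d) := by ring
            _ ≤ (K * (Q + 1)) * (K * (Q + 1) * d) := by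
              apply Nat.mul_le_mul h3
              apply Nat.mul_le_mul_right
              apply Nat.mul_le_mul (by omega) (by omega)
        have hxy : 2 * d * 2 ^ (x0 Q) ≤ a := by
          rcases Nat.eq_zero_or_pos y with hy0 | hy0
          · have h1 : x0 Q ≤ 0 := hx0b Q 0 (by
              refine hcardQ.trans (Nat.pow_le_pow_right (by norm_num) ?_)
              apply Nat.mul_le_mul_right
              rw [hy0]
              omega)
            have h2 : x0 Q = 0 := by omega
            rw [h2, pow_zero]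
            omega
          · have h1 : x0 Q ≤ y - 1 := hx0b Q (y - 1) (by
              refine hcardQ.trans (Nat.pow_le_pow_right (by norm_num) ?_)
              apply Nat.mul_le_mul_right
              have h5 : y + 1 ≤ 2 * (2 * (y - 1) + 7) := by omega
              calc d * (y + 1) ≤ d * (2 * (2 * (y - 1) + 7)) := Nat.mul_le_mul_left _ h5
                _ = 2 * d * (2 * (y - 1) + 7) := by ring)
            have h3 : 2 ^ y ≤ a / d := by
              rw [hy]
              apply Nat.pow_log_le_self
              intro h4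
              rw [hy, h4, Nat.log_zero_right] at hy0
              omega
            have h4 : d * 2 ^ y ≤ a := by
              calc d * 2 ^ y ≤ d * (a / d) := Nat.mul_le_mul_left _ h3
                _ ≤ a := Nat.mul_div_le _ _
            calc 2 * d * 2 ^ (x0 Q) ≤ 2 * d * 2 ^ (y - 1) :=
                  Nat.mul_le_mul_left _ (Nat.pow_le_pow_right (by norm_num) h1)
              _ = d * 2 ^ y := by
                  obtain ⟨z, rfl⟩ : ∃ z, y = z + 1 := ⟨y - 1, by omega⟩
                  rw [Nat.add_sub_cancel, pow_succ]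
                  ring
              _ ≤ a := h4
        obtain ⟨T, hTS, hTc, hT⟩ := hdec Q (by
          rw [hHQ Q hne]
          exact hH1 Q (dom π S) (pos π S) ⟨A', hA'C, pos_eq π S A' hA'⟩ (by rwa [← ha])
            (by rwa [← ha]))
        refine ⟨T, hTS, ?_, hT⟩
        rw [hTc, hKdef]
        have h3 : Q + 1 ≤ 2 * Q := by omega
        calc 2 ^ 40 * (Q + 1) * d ≤ 2 ^ 40 * (2 * Q) * d := by gcongr
          _ = 2 ^ 41 * d * Q := by ring
          _ ≤ 2 ^ 47 * d * Q := by gcongr <;> norm_num
      · have hPQ : P + 1 ≤ 2 * Q + 9 := by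
          by_cases hne : Q = P
          · omega
          · have hsmall : a < (K * (Q + 1)) * (K * (Q + 1) * d) := by
              by_contra hcon
              exact hbig ⟨by omega, hne⟩
            have hy' : y < 82 + 2 * Q := by
              have h1 : a / d < 2 ^ (82 + 2 * Q) := by
                rw [Nat.div_lt_iff_lt_mul hdpos]
                refine hsmall.trans_le ?_
                have h6 : Q + 1 ≤ 2 ^ Q := Nat.lt_two_pow_self
                calc (K * (Q + 1)) * (K * (Q + 1) * d)
                    ≤ (K * 2 ^ Q) * (K * 2 ^ Q * d) := by gcongr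
                  _ = 2 ^ (80 + 2 * Q) * d := by rw [hKdef]; ring
                  _ ≤ 2 ^ (82 + 2 * Q) * d := by
                    apply Nat.mul_le_mul_right
                    exact Nat.pow_le_pow_right (by norm_num) (by omega)
              rcases Nat.eq_zero_or_pos (a / d) with h0 | h0
              · rw [hy, h0, Nat.log_zero_right]
                omega
              · rw [hy]
                exact Nat.log_lt_of_lt_pow (by omega) h1
            have h2 := level_le L d y Q hQ hy'
            rw [hL, ← hPdef] at h2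
            omega
        obtain ⟨T, hTS, hTc, hT⟩ := hfull
        refine ⟨T, hTS, hTc.trans ?_, hT⟩
        have h3 : P + 1 ≤ 11 * Q := by omega
        calc 4 * (K * (P + 1) * d) = 4 * K * d * (P + 1) := by ring
          _ ≤ 4 * K * d * (11 * Q) := Nat.mul_le_mul_left _ h3
          _ = 44 * K * d * Q := by ring
          _ ≤ 2 ^ 47 * d * Q := by
            rw [hKdef]
            gcongr
            norm_num
    refine ⟨fun S => if h : ∃ A ∈ C, ∀ p ∈ S, decide (p.1 ∈ A) = p.2 then (hex S h).choose
      else ∅, decoder (K * d) π H, fun S hS => ?_⟩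
    beta_reduce
    rw [dif_pos hS]
    exact (hex S hS).choose_spec

end Pool.Agent.Results.MP_aa62e0_lc.SampleSizeCompression
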