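import Pool.Agent.Lib.MP_aa62e0_lcS.Final

/-!
Sample compression: every family of samples in which each sample is fitted by no (or few) of the
concepts attached to earlier samples has a proper, unlabelled compression scheme of size `d`
(or `d + r`).
-/

namespace Pool.Agent.Results.MP_aa62e0_lc.SparseFamilies

open Pool.Agent.Lib.MP_aa62e0_lcS

theorem result {X : Type} [DecidableEq X] (C : Finset (Finset X))
    (F : Finset (Finset (X × Bool))) (c : Finset (X × Bool) → Finset X)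
    (hC : ∀ S ∈ F, c S ∈ C) (hc : ∀ S ∈ F, Fits (c S) S)
    (rk : Finset (X × Bool) → ℕ) (hrk : Set.InjOn rk F) :
    ((∀ S ∈ F, ∀ S' ∈ F, rk S' < rk S → ¬ Fits (c S') S) →
      ∃ κ : Finset (X × Bool) → Finset (X × Bool), ∃ ρ : Finset X → Finset X,
        ∀ T, (∃ S ∈ F, S ⊆ T ∧ Fits (c S) T) →
          κ T ⊆ T ∧ (κ T).card ≤ C.vcDim ∧ C.Shatters (dom (κ T)) ∧
            Fits (ρ (dom (κ T))) T) ∧
    (∀ a r t : ℕ, 3 * C.vcDim ≤ a → (∀ S ∈ F, a ≤ S.card) →
      (∀ S ∈ F, (F.filter fun S' => rk S' < rk S ∧ Fits (c S') S).card ≤ t) →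
      2 * (t + 1) * (C.vcDim + r).choose r ≤ (a - C.vcDim).choose r →
      ∃ κ : Finset (X × Bool) → Finset (X × Bool), ∃ ρ : Finset X → Finset X,
        ∀ T, (∃ S ∈ F, S ⊆ T ∧ Fits (c S) T) →
          κ T ⊆ T ∧ (κ T).card = C.vcDim + r ∧ Fits (ρ (dom (κ T))) T) :=
  ⟨fun hF => sparse_zero C F c hC hc rk hrk hF,
    fun a r t ha hA hF hnum => sparse_gen C F c hC hc rk hrk a r t ha hA hF hnum⟩

end Pool.Agent.Results.MP_aa62e0_lc.SparseFamilies
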